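import Mathlib
import Pool.Agent.H220.K.Stm

set_option autoImplicit false

open Set Filter Topology Metric
open scoped ContDiff ComplexConjugate
open Pool.Agent.H220.K

namespace Pool.Agent.H638.K

theorem iter_two_line (φ : E3 → ℝ) (y v : E3) (h : ContDiffAt ℝ 2 φ y) :
    iteratedDeriv 2 (fun t : ℝ => φ (y + t • v)) 0 = fderiv ℝ (fderiv ℝ φ) y v v := by
  have hlin : ∀ t : ℝ, HasDerivAt (fun t : ℝ => y + t • v) v t := by
    intro t
    have := ((hasDerivAt_id t).smul_const v).const_add y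
    simpa using this
  have hcont : Tendsto (fun t : ℝ => y + t • v) (𝓝 0) (𝓝 y) := by
    have : Continuous (fun t : ℝ => y + t • v) := by fun_prop
    simpa using this.tendsto 0
  have hev : ∀ᶠ w in 𝓝 y, ContDiffAt ℝ 2 φ w := h.eventually (by simp)
  have h1 : ∀ᶠ t : ℝ in 𝓝 (0 : ℝ), deriv (fun t : ℝ => φ (y + t • v)) t =
      fderiv ℝ φ (y + t • v) v := by
    filter_upwards [hcont.eventually hev] with t ht
    have hd : DifferentiableAt ℝ φ (y + t • v) := ht.differentiableAt (by norm_num)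
    exact (hd.hasFDerivAt.comp_hasDerivAt t (hlin t)).deriv
  have hf : ContDiffAt ℝ 1 (fderiv ℝ φ) y := h.fderiv_right (by norm_num)
  have hfd : DifferentiableAt ℝ (fderiv ℝ φ) y := hf.differentiableAt (by norm_num)
  have h2 : HasDerivAt (fun t : ℝ => fderiv ℝ φ (y + t • v) v)
      (fderiv ℝ (fderiv ℝ φ) y v v) 0 := by
    have h3 : HasFDerivAt (fderiv ℝ φ) (fderiv ℝ (fderiv ℝ φ) y) (y + (0 : ℝ) • v) := by
      simpa using hfd.hasFDerivAt
    have h4 := h3.comp_hasDerivAt (0 : ℝ) (hlin 0)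
    have h5 : HasDerivAt (fun t : ℝ => (fderiv ℝ φ (y + t • v))) (fderiv ℝ (fderiv ℝ φ) y v) 0 := h4
    have h6 := h5.clm_apply (hasDerivAt_const (0 : ℝ) v)
    simpa using h6
  rw [iteratedDeriv_succ, iteratedDeriv_one]
  have h7 : deriv (fun t : ℝ => φ (y + t • v)) =ᶠ[𝓝 0] fun t => fderiv ℝ φ (y + t • v) v := h1
  rw [h7.deriv_eq, h2.deriv]

theorem levi_eq (φ : E3 → ℝ) (y ξ : E3) (h : ContDiffAt ℝ 2 φ y) :
    levi φ y ξ = (fderiv ℝ (fderiv ℝ φ) y ξ ξ +
      fderiv ℝ (fderiv ℝ φ) y (Complex.I • ξ) (Complex.I • ξ)) / 4 := by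
  have e1 : (fun t : ℝ => φ (y + (t : ℂ) • ξ)) = fun t : ℝ => φ (y + t • ξ) := by
    funext t
    rw [Complex.coe_smul]
  have e2 : (fun t : ℝ => φ (y + ((t : ℂ) * Complex.I) • ξ)) =
      fun t : ℝ => φ (y + t • (Complex.I • ξ)) := by
    funext t
    rw [mul_smul, Complex.coe_smul]
  unfold levi
  rw [e1, e2, iter_two_line φ y ξ h, iter_two_line φ y _ h]

theorem s_lcont : S_lcont := by
  intro φ z ξ h
  have hev : ∀ᶠ w in 𝓝 z, ContDiffAt ℝ 2 φ w := h.eventually (by simp)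
  have hev2 : ∀ᶠ q : E3 × E3 in 𝓝 (z, ξ), ContDiffAt ℝ 2 φ q.1 := by
    have : Tendsto (fun q : E3 × E3 => q.1) (𝓝 (z, ξ)) (𝓝 z) := continuous_fst.tendsto _
    exact this.eventually hev
  have hf : ContDiffAt ℝ 1 (fderiv ℝ φ) z := h.fderiv_right (by norm_num)
  have hff : ContDiffAt ℝ 0 (fderiv ℝ (fderiv ℝ φ)) z := hf.fderiv_right (by norm_num)
  have hc : ContinuousAt (fderiv ℝ (fderiv ℝ φ)) z := hff.continuousAt
  have hc2 : ContinuousAt (fun q : E3 × E3 => fderiv ℝ (fderiv ℝ φ) q.1) (z, ξ) :=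
    ContinuousAt.comp (f := fun q : E3 × E3 => q.1) (g := fderiv ℝ (fderiv ℝ φ)) (x := (z, ξ)) hc
      continuous_fst.continuousAt
  have hs : ContinuousAt (fun q : E3 × E3 => q.2) (z, ξ) := continuous_snd.continuousAt
  have hI : ContinuousAt (fun q : E3 × E3 => Complex.I • q.2) (z, ξ) := by
    have : Continuous (fun q : E3 × E3 => Complex.I • q.2) := by fun_prop
    exact this.continuousAt
  have key : ContinuousAt (fun q : E3 × E3 => (fderiv ℝ (fderiv ℝ φ) q.1 q.2 q.2 +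
      fderiv ℝ (fderiv ℝ φ) q.1 (Complex.I • q.2) (Complex.I • q.2)) / 4) (z, ξ) :=
    ((((hc2.clm_apply hs).clm_apply hs).add ((hc2.clm_apply hI).clm_apply hI))).div_const 4
  refine key.congr ?_
  filter_upwards [hev2] with q hq
  exact (levi_eq φ q.1 q.2 hq).symm

end Pool.Agent.H638.K
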